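import Mathlib

namespace Pool.Agent.Results.MP_2af702_co.Yes

/-- Permutations of size `n`. -/
abbrev P (n : ℕ) := Equiv.Perm (Fin n)

/-- Sets of permutations. -/
abbrev Cl := ∀ n, Set (P n)

/-- `f` picks a subsequence of `β` that is order-isomorphic to `α`. -/
def Emb {k n : ℕ} (α : P k) (β : P n) (f : Fin k → Fin n) : Prop :=
  StrictMono f ∧ ∀ i j, α i < α j ↔ β (f i) < β (f j)

def IsClass (C : Cl) : Prop :=
  ∀ n k (β : P n) (α : P k) f, β ∈ C n → Emb α β f → α ∈ C k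

def Unsplittable (C : Cl) : Prop :=
  ∀ k m (σ : P k) (π : P m), σ ∈ C k → π ∈ C m → ∃ (n : ℕ) (τ : P n), τ ∈ C n ∧
    ∀ c : Fin n → Bool, (∃ f, Emb σ τ f ∧ ∀ i, c (f i) = true) ∨
      (∃ f, Emb π τ f ∧ ∀ i, c (f i) = false)

def p2413 : P 4 := ⟨![1, 3, 0, 2], ![2, 0, 3, 1], by decide, by decide⟩

def p3142 : P 4 := ⟨![2, 0, 3, 1], ![1, 3, 0, 2], by decide, by decide⟩

/-- The separable permutations `Av(2413, 3142)`. -/
def Sep : Cl := fun _ => {π | (¬ ∃ f, Emb p2413 π f) ∧ ¬ ∃ f, Emb p3142 π f}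

inductive Pt
  | U (i : ℕ) : Pt
  | L (s : Fin 2) (i : ℕ) (p : Pt) : Pt

open Pt

def enc (c : ℕ) : Pt → List ℕ
  | U i => [c, 2 * i]
  | L s i p => s :: (2 * i + 1) :: enc c p

theorem enc_inj (c : ℕ) : Function.Injective (enc c) := by
  intro p
  induction p with
  | U i => rintro (j | ⟨t, j, q⟩) h <;> simp [enc] at h ⊢ <;> omega
  | L s i p ih =>
    rintro (j | ⟨t, j, q⟩) h
    · simp [enc] at h; omega
    · simp only [enc, List.cons.injEq] at h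
      rw [ih h.2.2, show i = j by omega, Fin.ext h.1]

theorem UU (c i j : ℕ) : enc c (U i) < enc c (U j) ↔ i < j := by
  simp [enc, List.cons_lt_cons_iff]

theorem UL (c i j : ℕ) (s : Fin 2) (q : Pt) :
    enc c (U i) < enc c (L s j q) ↔ c < s.1 ∨ (c = s.1 ∧ i ≤ j) := by
  simp only [enc, List.cons_lt_cons_iff]
  constructor
  · rintro (h | ⟨h, h' | ⟨h', -⟩⟩) <;> omega
  · rintro (h | ⟨h, h'⟩)
    · exact Or.inl h
    · exact Or.inr ⟨h, Or.inl (by omega)⟩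

theorem LU (c i j : ℕ) (s : Fin 2) (q : Pt) :
    enc c (L s j q) < enc c (U i) ↔ s.1 < c ∨ (s.1 = c ∧ j < i) := by
  simp only [enc, List.cons_lt_cons_iff]
  constructor
  · rintro (h | ⟨h, h' | ⟨h', -⟩⟩) <;> omega
  · rintro (h | ⟨h, h'⟩)
    · exact Or.inl h
    · exact Or.inr ⟨h, Or.inl (by omega)⟩

theorem LL (c i j : ℕ) (s t : Fin 2) (p q : Pt) : enc c (L s i p) < enc c (L t j q) ↔
    s.1 < t.1 ∨ (s.1 = t.1 ∧ (i < j ∨ (i = j ∧ enc c p < enc c q))) := by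
  simp [enc, List.cons_lt_cons_iff]

def Pat {n : ℕ} (π : P n) (h : Fin n → Pt) : Prop :=
  StrictMono (enc 0 ∘ h) ∧ ∀ i j, π i < π j ↔ enc 1 (h i) < enc 1 (h j)

def C : Cl := fun _ => {π | ∃ h, Pat π h}

theorem cls : IsClass C := by
  rintro n m β α f ⟨h, h1, h2⟩ ⟨f1, f2⟩
  exact ⟨h ∘ f, h1.comp f1, fun i j => (f2 i j).trans (h2 _ _)⟩

theorem sorted {n : ℕ} (c : ℕ) (h : Fin n → Pt) (hi : Function.Injective h) :
    StrictMono ((enc c ∘ h) ∘ Tuple.sort (enc c ∘ h)) :=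
  (Tuple.monotone_sort _).strictMono_of_injective
    (((enc_inj c).comp hi).comp (Equiv.injective _))

theorem std (S : Finset Pt) : ∃ (n : ℕ) (δ : P n) (h : Fin n → Pt), Pat δ h ∧
    ∀ p ∈ S, ∃ i, h i = p := by
  let e : Fin S.card → Pt := fun i => S.equivFin.symm i
  have he : Function.Injective e := Subtype.val_injective.comp S.equivFin.symm.injective
  let h := e ∘ Tuple.sort (enc 0 ∘ e)
  have hi : Function.Injective h := he.comp (Equiv.injective _)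
  refine ⟨_, (Tuple.sort (enc 1 ∘ h)).symm, h, ⟨sorted 0 e he, fun i j => ?_⟩, fun p hp => ?_⟩
  · rw [← (sorted 1 h hi).lt_iff_lt]
    simp
  · exact ⟨(Tuple.sort (enc 0 ∘ e)).symm (S.equivFin ⟨p, hp⟩), by simp [h, e]⟩

theorem emb_of {n m : ℕ} {π : P n} {σ : P m} {h : Fin n → Pt} {g : Fin m → Pt}
    (H : Pat π h) (G : Pat σ g) (f : Fin m → Fin n) (e : ∀ i, h (f i) = g i) : Emb σ π f :=
  ⟨fun i j hij => H.1.lt_iff_lt.1 (by simpa [e] using G.1 hij),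
    fun i j => by rw [G.2, H.2, e, e]⟩

def Mono (φ : Pt → Pt) : Prop := ∀ c p q, enc c (φ p) < enc c (φ q) ↔ enc c p < enc c q

theorem Pat.map {n : ℕ} {π : P n} {h : Fin n → Pt} (H : Pat π h) {φ : Pt → Pt}
    (hφ : Mono φ) : Pat π (φ ∘ h) :=
  ⟨fun _ _ hij => (hφ 0 _ _).2 (H.1 hij), fun i j => (H.2 i j).trans (hφ 1 _ _).symm⟩

def Sm (m : ℕ) : ℕ → Pt → Prop
  | 0, _ => False
  | _ + 1, U i => i < m
  | d + 1, L _ i p => i < m ∧ Sm m d p

def sz : Pt → ℕ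
  | U i => i + 1
  | L _ i p => i + sz p + 1

theorem sm_sz (m : ℕ) : ∀ (p : Pt) (d : ℕ), sz p ≤ m → sz p ≤ d → Sm m d p
  | U _, 0, _, h => by simp [sz] at h
  | L _ _ _, 0, _, h => by simp [sz] at h
  | U _, _ + 1, h, _ => h
  | L _ i p, d + 1, h, h' => by
    simp only [sz] at h h'
    exact ⟨by omega, sm_sz m p d (by omega) (by omega)⟩

def Copy (m d : ℕ) (T : Finset Pt) (c : Pt → Bool) (b : Bool) : Prop :=
  ∃ φ, Mono φ ∧ ∀ p, Sm m d p → φ p ∈ T ∧ c (φ p) = b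

theorem Copy.mono {m d : ℕ} {T T' : Finset Pt} {c : Pt → Bool} {b : Bool} (h : T ⊆ T') :
    Copy m d T c b → Copy m d T' c b :=
  fun ⟨φ, h1, h2⟩ => ⟨φ, h1, fun p hp => ⟨h (h2 p hp).1, (h2 p hp).2⟩⟩

theorem L_mono (s : Fin 2) (i : ℕ) : Mono (L s i) := fun c p q => by simp [LL]

theorem build {m d : ℕ} {T T' : Finset Pt} {c : Pt → Bool} {b : Bool}
    (hU : ∀ i < 2 * m, U i ∈ T) (hL : ∀ s, ∀ i < 2 * m, ∀ p ∈ T', L s i p ∈ T)
    (hs : ∀ s, ∀ i < 2 * m, Copy m d T' (fun p => c (L s i p)) b)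
    (hc : m ≤ ((Finset.range (2 * m)).filter fun i => c (U i) = b).card) :
    Copy m (d + 1) T c b := by
  classical
  let Q : ℕ → Prop := fun j => c (U j) = b ∨ 2 * m ≤ j
  have hQ : {j | Q j}.Infinite := (Set.Ici_infinite (2 * m)).mono fun j hj => Or.inr hj
  have h1 := Nat.nth_strictMono hQ
  have h2 : ∀ j < m, Nat.nth Q j < 2 * m := fun j hj => Nat.nth_lt_of_lt_count (by
    rw [Nat.count_eq_card_filter_range]
    exact hj.trans_le (hc.trans (Finset.card_le_card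
      (Finset.monotone_filter_right _ fun a _ h => Or.inl h))))
  have h3 : ∀ j < m, c (U (Nat.nth Q j)) = b := fun j hj =>
    (Nat.nth_mem_of_infinite hQ j).resolve_right (not_le.2 (h2 j hj))
  have : ∀ (s : Fin 2) (i : ℕ), ∃ φ, Mono φ ∧ (i < 2 * m →
      ∀ p, Sm m d p → φ p ∈ T' ∧ c (L s i (φ p)) = b) := by
    intro s i
    by_cases hi : i < 2 * m
    · obtain ⟨φ, a1, a2⟩ := hs s i hi
      exact ⟨φ, a1, fun _ => a2⟩
    · exact ⟨id, fun _ _ _ => Iff.rfl, fun h => absurd h hi⟩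
  choose φ f1 f2 using this
  refine ⟨fun p => match p with
    | U j => U (Nat.nth Q j)
    | L s j p => L s (Nat.nth Q j) (φ s (Nat.nth Q j) p), ?_, ?_⟩
  · rintro k (i | ⟨s, i, p⟩) (j | ⟨t, j, q⟩)
    · simp only [UU, h1.lt_iff_lt]
    · simp only [UL, h1.le_iff_le]
    · simp only [LU, h1.lt_iff_lt]
    · simp only [LL, h1.lt_iff_lt, h1.injective.eq_iff]
      refine or_congr_right (and_congr_right fun e => or_congr_right (and_congr_right fun e' => ?_))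
      rw [Fin.ext e, e']
      exact f1 _ _ k p q
  · rintro (i | ⟨s, i, p⟩) hp
    · exact ⟨hU _ (h2 i hp), h3 i hp⟩
    · have := f2 s _ (h2 i hp.1) p hp.2
      exact ⟨hL s _ (h2 i hp.1) _ this.1, this.2⟩

theorem ramsey (m : ℕ) : ∀ d e : ℕ, ∃ T : Finset Pt, ∀ c : Pt → Bool,
    Copy m d T c true ∨ Copy m e T c false
  | 0, _ => ⟨∅, fun _ => Or.inl ⟨id, fun _ _ _ => Iff.rfl, fun _ h => h.elim⟩⟩
  | _ + 1, 0 => ⟨∅, fun _ => Or.inr ⟨id, fun _ _ _ => Iff.rfl, fun _ h => h.elim⟩⟩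
  | d + 1, e + 1 => by
    classical
    obtain ⟨T1, h1⟩ := ramsey m d (e + 1)
    obtain ⟨T2, h2⟩ := ramsey m (d + 1) e
    obtain ⟨T, hU, hL⟩ : ∃ T : Finset Pt, (∀ i < 2 * m, U i ∈ T) ∧
        ∀ s, ∀ i < 2 * m, ∀ p ∈ T1 ∪ T2, L s i p ∈ T :=
      ⟨(Finset.range (2 * m)).image U ∪ (Finset.univ ×ˢ Finset.range (2 * m) ×ˢ (T1 ∪ T2)).image
        fun q => L q.1 q.2.1 q.2.2, fun i hi => by simp [hi], fun s i hi p hp =>
          Finset.mem_union_right _ (Finset.mem_image.2 ⟨(s, i, p), by simpa [hi] using hp, rfl⟩)⟩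
    refine ⟨T, fun c => ?_⟩
    by_contra hn
    rw [not_or] at hn
    have lift : ∀ s, ∀ i < 2 * m, ∀ k b, Copy m k (T1 ∪ T2) (fun p => c (L s i p)) b →
        Copy m k T c b := by
      rintro s i hi k b ⟨φ, a1, a2⟩
      exact ⟨L s i ∘ φ, fun c p q => (L_mono s i c _ _).trans (a1 c p q),
        fun p hp => ⟨hL s i hi _ (a2 p hp).1, (a2 p hp).2⟩⟩
    have := Finset.card_filter_add_card_filter_not (s := Finset.range (2 * m))
      fun i => c (U i) = true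
    simp only [Finset.card_range, Bool.not_eq_true] at this
    by_cases hc : m ≤ ((Finset.range (2 * m)).filter fun i => c (U i) = true).card
    · exact hn.1 (build hU hL (fun s i hi => ((h1 _).resolve_right fun h =>
        hn.2 (lift s i hi _ _ (h.mono Finset.subset_union_left))).mono
          Finset.subset_union_left) hc)
    · exact hn.2 (build hU hL (fun s i hi => ((h2 _).resolve_left fun h =>
        hn.1 (lift s i hi _ _ (h.mono Finset.subset_union_right))).mono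
          Finset.subset_union_right) (by omega))

theorem unsplit : Unsplittable C := by
  classical
  rintro k l σ π ⟨g1, G1⟩ ⟨g2, G2⟩
  obtain ⟨m, m1, m2⟩ : ∃ m, (∀ i, sz (g1 i) ≤ m) ∧ ∀ i, sz (g2 i) ≤ m :=
    ⟨Finset.univ.sup (sz ∘ g1) + Finset.univ.sup (sz ∘ g2),
      fun i => (Finset.le_sup (f := sz ∘ g1) (Finset.mem_univ i)).trans (Nat.le_add_right _ _),
      fun i => (Finset.le_sup (f := sz ∘ g2) (Finset.mem_univ i)).trans (Nat.le_add_left _ _)⟩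
  obtain ⟨T, hT⟩ := ramsey m m m
  obtain ⟨n, τ, h, H, hS⟩ := std T
  refine ⟨n, τ, ⟨h, H⟩, fun c => ?_⟩
  have key : ∀ {r : ℕ} (ρ : P r) (g : Fin r → Pt) (b : Bool), Pat ρ g → (∀ i, sz (g i) ≤ m) →
      Copy m m T (fun p => if e : ∃ i, h i = p then c e.choose else true) b →
      ∃ f, Emb ρ τ f ∧ ∀ i, c (f i) = b := by
    rintro r ρ g b G hm ⟨φ, a1, a2⟩
    have a3 := fun i => a2 (g i) (sm_sz m _ m (hm i) (hm i))
    refine ⟨fun i => (hS _ (a3 i).1).choose,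
      emb_of H (G.map a1) _ fun i => (hS _ (a3 i).1).choose_spec, fun i => ?_⟩
    have := (a3 i).2
    simp only [dif_pos (hS _ (a3 i).1)] at this
    exact this
  exact (hT _).imp (key σ g1 true G1 m1) (key π g2 false G2 m2)

theorem avoid : ∀ y a b c : Pt, enc 0 a < enc 0 b → enc 0 b < enc 0 c → enc 0 c < enc 0 y →
    enc 1 y < enc 1 a → enc 1 a < enc 1 c → ¬ enc 1 c < enc 1 b := by
  intro y
  induction y with
  | U j =>
    rintro (a | ⟨s, i, a⟩) (b | ⟨t, k, b⟩) (c | ⟨u, l, c⟩) <;> simp only [UU, UL, LU, LL] <;> omega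
  | L v j y ih =>
    rintro (a | ⟨s, i, a⟩) (b | ⟨t, k, b⟩) (c | ⟨u, l, c⟩) <;> simp only [UU, UL, LU, LL]
    any_goals omega
    rintro (h | ⟨_, h | ⟨_, g1⟩⟩) (h | ⟨_, h | ⟨_, g2⟩⟩) (h | ⟨_, h | ⟨_, g3⟩⟩)
      (h | ⟨_, h | ⟨_, g4⟩⟩) (h | ⟨_, h | ⟨_, g5⟩⟩) (h | ⟨_, h | ⟨_, g6⟩⟩) <;>
      first | omega | exact ih a b c g1 g2 g3 g4 g5 g6

def p2431 : P 4 := ⟨![1, 3, 2, 0], ![3, 0, 2, 1], by decide, by decide⟩

instance (α β : P 4) (f : Fin 4 → Fin 4) : Decidable (Emb α β f) := by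
  unfold Emb StrictMono; infer_instance

theorem result : ∃ C : Cl, IsClass C ∧ Unsplittable C ∧
    (¬ ∀ n, Sep n ⊆ C n) ∧ ¬ ∀ n, C n ⊆ Sep n := by
  refine ⟨C, cls, unsplit, fun h => ?_, fun h => ?_⟩
  · obtain ⟨g, g1, g2⟩ := h 4 (show p2431 ∈ Sep 4 from ⟨by decide +kernel, by decide +kernel⟩)
    exact avoid (g 3) (g 0) (g 1) (g 2) (g1 (by decide)) (g1 (by decide)) (g1 (by decide))
      ((g2 _ _).1 (by decide)) ((g2 _ _).1 (by decide)) ((g2 _ _).1 (by decide))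
  · refine (h 4 (show p3142 ∈ C 4 from ⟨![U 0, L 0 0 (U 0), U 1, L 0 1 (U 0)], ?_, ?_⟩)).2
      ⟨id, strictMono_id, fun _ _ => Iff.rfl⟩
    · unfold StrictMono; decide
    · decide

end Pool.Agent.Results.MP_2af702_co.Yes
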